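import Pool.Agent.W301.TD.Avoid
import Pool.Agent.W301.TD.LowFreq

/-! # The lowest digits of powers of a prime

Let `q` be a prime and `p ≥ 2` an integer prime to `q`.  For all `n < M` outside a set of at most
`M ^ (1 - c)` exceptions, all blocks of `k` digits have the right frequency among the lowest
`C log M` digits of `l p ^ n` in base `q`, with `C` as large as we please; so `p ^ n` contains every
digit at least `A log M` times.  For every set `D` of digits, `2 ≤ |D| < q`, a power of `M` is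
saved over the trivial bound `M ^ (log |D| / log q)` for the number of `n < M` such that all digits
of `l p ^ n` are in `D`. -/

set_option autoImplicit false

namespace Pool.Agent.Results.MP_b08cb4_nt.LowestDigits

open Finset
open Pool.Agent.W301.TD.AA

open Classical in
/-- frequencies of blocks -/
theorem frequencies (q p k : ℕ) (hq : q.Prime) (hp2 : 2 ≤ p) (hp : ¬ q ∣ p) (hk : 1 ≤ k) (C ε : ℝ)
    (hC : 0 < C) (hε : 0 < ε) :
    ∃ c : ℝ, 0 < c ∧ ∃ M0 : ℕ, ∀ M : ℕ, M0 ≤ M → ∀ l : ℕ, ¬ q ∣ l →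
      (((range M).filter (fun n => ¬ ∀ m : ℕ, (m : ℝ) ≤ C * Real.log M → ∀ a < q ^ k,
        |(((range m).filter (fun i => l * p ^ n / q ^ i % q ^ k = a)).card : ℝ) - m / (q : ℝ) ^ k| ≤
          ε * Real.log M)).card : ℝ) ≤ (M : ℝ) ^ (1 - c) := by
  obtain ⟨c, hc, M0, h⟩ := lowFreq q p k hq hp2 hp hk C ε hC hε
  refine ⟨c, hc, M0, fun M hM l hl => ?_⟩
  have := h M hM l hl
  unfold bc at this
  push_cast at this
  exact this

lemma count_digits {q : ℕ} (hq : 2 ≤ q) (b m : ℕ) : ∀ X : ℕ, q ^ m ≤ X →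
    ((range m).filter (fun i => X / q ^ i % q ^ 1 = b)).card ≤ (Nat.digits q X).count b := by
  induction m with
  | zero => intro X _; simp
  | succ m ih =>
    intro X hX
    have hX0 : 0 < X := lt_of_lt_of_le (pow_pos (by omega) _) hX
    have h1 : q ^ m ≤ X / q := by
      rw [Nat.le_div_iff_mul_le (by omega), ← pow_succ]
      exact hX
    have h2 := ih (X / q) h1
    rw [Nat.digits_def' (by omega) hX0, List.count_cons, card_filter, sum_range_succ', ← card_filter]
    refine Nat.add_le_add ?_ ?_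
    · refine le_trans (le_of_eq ?_) h2
      congr 1
      apply filter_congr
      intro i _
      rw [pow_succ' q i, ← Nat.div_div_eq_div_mul]
    · simp only [pow_zero, Nat.div_one, pow_one]
      by_cases h : X % q = b
      · simp [h]
      · simp [h]

open Classical in
/-- every digit occurs often -/
theorem occurrences (q p : ℕ) (hq : q.Prime) (hp2 : 2 ≤ p) (hp : ¬ q ∣ p) (A : ℝ) :
    ∃ c : ℝ, 0 < c ∧ ∃ M0 : ℕ, ∀ M : ℕ, M0 ≤ M →
      (((range M).filter (fun n => ∃ b < q, ((Nat.digits q (p ^ n)).count b : ℝ) < A * Real.log M)).card : ℝ) ≤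
        (M : ℝ) ^ (1 - c) := by
  have hqR : (2 : ℝ) ≤ q := by exact_mod_cast hq.two_le
  have hq0 : (0 : ℝ) < q := by linarith
  set A' : ℝ := max A 1 with hA'
  have hA'1 : 1 ≤ A' := le_max_right _ _
  have hAA' : A ≤ A' := le_max_left _ _
  set C : ℝ := 3 * q * A' with hC
  have hC0 : 0 < C := by positivity
  obtain ⟨c, hc, M0, h⟩ := frequencies q p 1 hq hp2 hp le_rfl C 1 hC0 one_pos
  set c' : ℝ := min c (1 / 2) / 2 with hc'
  have hc'0 : 0 < c' := by
    have : 0 < min c (1 / 2) := lt_min hc (by norm_num)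
    positivity
  have hc'1 : 2 * c' ≤ c := by have := min_le_left c (1 / 2); linarith
  have hc'2 : 2 * c' ≤ 1 / 2 := by have := min_le_right c (1 / 2); linarith
  have T : ∀ {r : ℝ}, 0 < r → Filter.Tendsto (fun M : ℕ => (M : ℝ) ^ r) Filter.atTop Filter.atTop := fun hr =>
    (tendsto_rpow_atTop hr).comp tendsto_natCast_atTop_atTop
  obtain ⟨M1, hM1⟩ := Filter.eventually_atTop.1 (((T hc'0).eventually_ge_atTop 2).and
    (((T (by norm_num : (0 : ℝ) < 1 / 4)).eventually_ge_atTop (4 * (q * C))).and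
    ((Filter.eventually_ge_atTop 3).and (Filter.eventually_ge_atTop M0))))
  refine ⟨c', hc'0, M1, fun M hM => ?_⟩
  obtain ⟨g1, g2, g3, g4⟩ := hM1 M hM
  have hM3 : (3 : ℝ) ≤ M := by exact_mod_cast g3
  have hMpos : (0 : ℝ) < M := by linarith
  have hM1' : (1 : ℝ) ≤ M := by linarith
  have hlog : 1 ≤ Real.log M := by
    rw [Real.le_log_iff_exp_le hMpos]
    have := Real.exp_one_lt_d9
    linarith
  set m : ℕ := ⌊C * Real.log M⌋₊ with hm
  have hm1 : (m : ℝ) ≤ C * Real.log M := Nat.floor_le (by positivity)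
  have hm2 : C * Real.log M < m + 1 := Nat.lt_floor_add_one _
  have h1 := h M g4 1 (fun h => hq.one_lt.ne' (Nat.dvd_one.1 h))
  have hsub : (range M).filter (fun n => ∃ b < q, ((Nat.digits q (p ^ n)).count b : ℝ) < A * Real.log M) ⊆
      (range M).filter (fun n => ¬ ∀ m : ℕ, (m : ℝ) ≤ C * Real.log M → ∀ a < q ^ 1,
        |(((range m).filter (fun i => 1 * p ^ n / q ^ i % q ^ 1 = a)).card : ℝ) - m / (q : ℝ) ^ 1| ≤
          1 * Real.log M) ∪ range (q * m) := by
    intro n hn
    rw [mem_filter] at hn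
    obtain ⟨hnM, b, hb, hlt⟩ := hn
    rw [mem_union]
    by_cases hnm : n < q * m
    · exact Or.inr (mem_range.2 hnm)
    · left
      refine mem_filter.2 ⟨hnM, fun hall => ?_⟩
      have h2 := hall m hm1 b (by rw [pow_one]; exact hb)
      simp only [pow_one, one_mul] at h2
      have hqm : q ^ m ≤ p ^ n := by
        calc q ^ m ≤ (2 ^ q) ^ m := Nat.pow_le_pow_left (Nat.lt_two_pow_self).le m
          _ = 2 ^ (q * m) := by rw [pow_mul]
          _ ≤ p ^ (q * m) := Nat.pow_le_pow_left hp2 _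
          _ ≤ p ^ n := Nat.pow_le_pow_right (by omega) (not_lt.1 hnm)
      have h3 : (((range m).filter (fun i => p ^ n / q ^ i % q ^ 1 = b)).card : ℝ) ≤ (Nat.digits q (p ^ n)).count b := by
        exact_mod_cast count_digits hq.two_le b m (p ^ n) hqm
      have h4 := (abs_le.1 h2).1
      have h5 : 3 * A' * Real.log M - 1 ≤ m / (q : ℝ) := by
        rw [le_div_iff₀ hq0]
        have : (3 * A' * Real.log M - 1) * q = C * Real.log M - q := by rw [hC]; ring
        rw [this]; linarith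
      have h6 : A * Real.log M ≤ A' * Real.log M := mul_le_mul_of_nonneg_right hAA' (by linarith)
      have h7 : Real.log M ≤ A' * Real.log M := le_mul_of_one_le_left (by linarith) hA'1
      simp only [pow_one] at h3
      linarith
  have hlogle : q * (C * Real.log M) ≤ (M : ℝ) ^ (1 - 2 * c') := by
    have h2 : Real.log M ≤ (M : ℝ) ^ (1 / 4 : ℝ) / (1 / 4) := Real.log_le_rpow_div hMpos.le (by norm_num)
    calc q * (C * Real.log M) ≤ q * (C * ((M : ℝ) ^ (1 / 4 : ℝ) / (1 / 4))) := by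
          apply mul_le_mul_of_nonneg_left _ hq0.le
          exact mul_le_mul_of_nonneg_left h2 hC0.le
      _ = (4 * (q * C)) * (M : ℝ) ^ (1 / 4 : ℝ) := by ring
      _ ≤ (M : ℝ) ^ (1 / 4 : ℝ) * (M : ℝ) ^ (1 / 4 : ℝ) := mul_le_mul_of_nonneg_right g2 (by positivity)
      _ = (M : ℝ) ^ (1 / 2 : ℝ) := by rw [← Real.rpow_add hMpos]; norm_num
      _ ≤ _ := Real.rpow_le_rpow_of_exponent_le hM1' (by linarith)
  calc (((range M).filter (fun n => ∃ b < q, ((Nat.digits q (p ^ n)).count b : ℝ) < A * Real.log M)).card : ℝ) ≤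
        (((range M).filter (fun n => ¬ ∀ m : ℕ, (m : ℝ) ≤ C * Real.log M → ∀ a < q ^ 1,
          |(((range m).filter (fun i => 1 * p ^ n / q ^ i % q ^ 1 = a)).card : ℝ) - m / (q : ℝ) ^ 1| ≤
            1 * Real.log M)).card : ℝ) + (q * m : ℕ) := by
          have h8 := (card_le_card hsub).trans (card_union_le _ _)
          rw [card_range] at h8
          exact_mod_cast h8
    _ ≤ (M : ℝ) ^ (1 - c) + q * (C * Real.log M) := by
        refine add_le_add h1 ?_
        push_cast
        exact mul_le_mul_of_nonneg_left hm1 hq0.le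
    _ ≤ (M : ℝ) ^ (1 - 2 * c') + (M : ℝ) ^ (1 - 2 * c') :=
        add_le_add (Real.rpow_le_rpow_of_exponent_le hM1' (by linarith)) hlogle
    _ = 2 * (M : ℝ) ^ (1 - 2 * c') := by ring
    _ ≤ (M : ℝ) ^ c' * (M : ℝ) ^ (1 - 2 * c') := mul_le_mul_of_nonneg_right g1 (by positivity)
    _ = (M : ℝ) ^ (1 - c') := by rw [← Real.rpow_add hMpos]; congr 1; ring

open Classical in
/-- **The lowest digits of powers of a prime.** -/
theorem result :
    -- frequencies of blocks of length `k` among the lowest `C log M` digits of `l p ^ n`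
    (∀ q p k : ℕ, q.Prime → 2 ≤ p → ¬ q ∣ p → 1 ≤ k → ∀ C ε : ℝ, 0 < C → 0 < ε →
      ∃ c : ℝ, 0 < c ∧ ∃ M0 : ℕ, ∀ M : ℕ, M0 ≤ M → ∀ l : ℕ, ¬ q ∣ l →
        (((range M).filter (fun n => ¬ ∀ m : ℕ, (m : ℝ) ≤ C * Real.log M → ∀ a < q ^ k,
          |(((range m).filter (fun i => l * p ^ n / q ^ i % q ^ k = a)).card : ℝ) - m / (q : ℝ) ^ k| ≤
            ε * Real.log M)).card : ℝ) ≤ (M : ℝ) ^ (1 - c)) ∧
    -- every digit occurs at least `A log M` times in `p ^ n`
    (∀ q p : ℕ, q.Prime → 2 ≤ p → ¬ q ∣ p → ∀ A : ℝ,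
      ∃ c : ℝ, 0 < c ∧ ∃ M0 : ℕ, ∀ M : ℕ, M0 ≤ M →
        (((range M).filter (fun n => ∃ b < q, ((Nat.digits q (p ^ n)).count b : ℝ) < A * Real.log M)).card : ℝ) ≤
          (M : ℝ) ^ (1 - c)) ∧
    -- all digits in a set `D`: a power saving over the exponent `log |D| / log q`
    (∀ (q p : ℕ) (D : Finset ℕ), q.Prime → 2 ≤ p → p.Coprime q → D ⊆ range q → 2 ≤ D.card → D.card < q →
      ∃ θ : ℝ, 0 < θ ∧ θ < Real.log D.card / Real.log q ∧
        ∃ C : ℝ, ∀ l : ℕ, l.Coprime q → ∀ N : ℕ, 1 ≤ N →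
          (((range N).filter (fun n => (Nat.digits q (l * p ^ n)).toFinset ⊆ D)).card : ℝ) ≤
            C * (N : ℝ) ^ θ) :=
  ⟨fun q p k hq hp2 hp hk C ε hC hε => frequencies q p k hq hp2 hp hk C ε hC hε,
    fun q p hq hp2 hp A => occurrences q p hq hp2 hp A, Pool.Agent.W301.TD.Avoid.general⟩

end Pool.Agent.Results.MP_b08cb4_nt.LowestDigits
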