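import Pool.Agent.W301.TD.Asym2

/-! # Powers with restricted digits in a large prime base

Let `A > 0` be any real.  If the prime `q` is large enough in terms of `A`, then for every set `D` of
digits which is a union of few intervals we count the `n < N` for which the `k` digits of `l p ^ n` at
the places `s, s + 1, …, s + k - 1` in base `q` lie in `D`, for all `k ≤ A log_q N`, with an error
`O(N ^ (1 - c))`, and `c` depends only on `A`.  In particular a given digit `b` is missing in
`p ^ n` for at most `C N ^ (1 - A (1 - log (q - 1) / log q))` of the `n < N`. -/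

set_option autoImplicit false

namespace Pool.Agent.Results.MP_b08cb4_nt.MissingDigitLargeBase

open Finset
open Pool.Agent.W301.TD

theorem result (A : ℝ) (hA : 0 < A) :
    ∃ c : ℝ, 0 < c ∧ ∀ T : ℕ, ∃ q₀ : ℕ, ∀ q : ℕ, q₀ ≤ q → q.Prime → ∀ p : ℕ, 2 ≤ p → ¬ q ∣ p →
      (∃ s : ℕ, ∀ D : Finset ℕ, D ⊆ range q → (D.filter (fun x => x + 1 ∉ D)).card ≤ T →
        ∃ C : ℝ, ∀ l : ℕ, ¬ q ∣ l → ∀ N : ℕ, 1 ≤ N →
        (∀ k : ℕ, (k : ℝ) ≤ A * Real.logb q N →
          |(((range N).filter (fun n => ∀ i < k, l * p ^ n / q ^ (s + i) % q ∈ D)).card : ℝ) -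
            N * ((D.card : ℝ) / q) ^ k| ≤ C * (N : ℝ) ^ (1 - c)) ∧
        ((q : ℝ) ^ (1 - c / A) ≤ D.card →
          (((range N).filter (fun n => (Nat.digits q (l * p ^ n)).toFinset ⊆ D)).card : ℝ) ≤
            C * (N : ℝ) ^ (1 - A * (1 - Real.log D.card / Real.log q)))) ∧
      (∀ b < q, ∃ C : ℝ, ∀ N : ℕ, 1 ≤ N →
        (((range N).filter (fun n => b ∉ Nat.digits q (p ^ n))).card : ℝ) ≤
          C * (N : ℝ) ^ (1 - A * (1 - Real.log ((q : ℝ) - 1) / Real.log q))) := by
  obtain ⟨c, hc, h⟩ := runs_main A hA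
  refine ⟨c, hc, fun T => ?_⟩
  obtain ⟨q₀, hq₀⟩ := h (T + 2)
  refine ⟨q₀ + ⌈Real.exp (A / c)⌉₊ + 2, fun q hqq hq p hp2 hp => ?_⟩
  obtain ⟨s, hs⟩ := hq₀ q (by omega) hq p hp2 hp
  refine ⟨⟨s, fun D hD hDT => ?_⟩, fun b hb => ?_⟩
  · obtain ⟨C, hC⟩ := hs D hD (by omega)
    exact ⟨C, hC⟩
  · have hq2 : 2 ≤ q := hq.two_le
    have hqR : (2 : ℝ) ≤ q := by exact_mod_cast hq2
    have hq0 : (0 : ℝ) < q := by linarith
    have hbm : b ∈ range q := mem_range.2 hb
    set D := (range q).erase b with hD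
    have hDc : D.card = q - 1 := by rw [hD, card_erase_of_mem hbm, card_range]
    have hDR : (D.card : ℝ) = (q : ℝ) - 1 := by
      rw [hDc, Nat.cast_sub (by omega)]; push_cast; ring
    have hDT : (D.filter (fun x => x + 1 ∉ D)).card ≤ T + 2 := by
      have : D.filter (fun x => x + 1 ∉ D) ⊆ {b - 1, q - 1} := by
        intro x hx
        rw [mem_filter, hD, mem_erase, mem_erase, mem_range, mem_range] at hx
        rw [mem_insert, mem_singleton]
        obtain ⟨⟨h1, h2⟩, h3⟩ := hx
        by_contra h4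
        push Not at h4
        exact h3 ⟨by omega, by omega⟩
      have h5 := card_le_card this
      have h6 : ({b - 1, q - 1} : Finset ℕ).card ≤ 2 := card_le_two
      omega
    obtain ⟨C, hC⟩ := hs D (erase_subset _ _) hDT
    refine ⟨C, fun N hN => ?_⟩
    have hl : ¬ q ∣ 1 := fun h => by
      have := Nat.dvd_one.1 h
      omega
    have h1 := (hC 1 hl N hN).2 (by
      have hlog : A / c ≤ Real.log q := by
        rw [Real.le_log_iff_exp_le hq0]
        have h1 : Real.exp (A / c) ≤ ⌈Real.exp (A / c)⌉₊ := Nat.le_ceil _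
        have h2 : ((⌈Real.exp (A / c)⌉₊ : ℕ) : ℝ) ≤ q := by
          exact_mod_cast (by omega : ⌈Real.exp (A / c)⌉₊ ≤ q)
        linarith
      have h2 : (2 : ℝ) ≤ (q : ℝ) ^ (c / A) := by
        have h3 : Real.log 2 ≤ Real.log q * (c / A) := by
          have h4 : A / c * (c / A) ≤ Real.log q * (c / A) := mul_le_mul_of_nonneg_right hlog (by positivity)
          have h5 : A / c * (c / A) = 1 := by field_simp
          have h6 := Real.log_two_lt_d9
          linarith
        rw [Real.rpow_def_of_pos hq0]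
        calc (2 : ℝ) = Real.exp (Real.log 2) := (Real.exp_log (by norm_num)).symm
          _ ≤ _ := Real.exp_le_exp.2 h3
      rw [Real.rpow_sub hq0, Real.rpow_one, hDR, div_le_iff₀ (Real.rpow_pos_of_pos hq0 _)]
      nlinarith)
    rw [← hDR]
    have h2 : ((range N).filter (fun n => b ∉ Nat.digits q (p ^ n))) ⊆
        ((range N).filter (fun n => (Nat.digits q (1 * p ^ n)).toFinset ⊆ D)) := by
      intro n hn
      rw [mem_filter] at hn ⊢
      refine ⟨hn.1, fun d hd => ?_⟩
      rw [one_mul, List.mem_toFinset] at hd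
      rw [hD, mem_erase, mem_range]
      refine ⟨fun h3 => hn.2 (h3 ▸ hd), Nat.digits_lt_base (by omega) hd⟩
    have h3 : (((range N).filter (fun n => b ∉ Nat.digits q (p ^ n))).card : ℝ) ≤ (G q D p 1 N : ℝ) := by
      unfold G
      exact_mod_cast card_le_card h2
    exact h3.trans h1

end Pool.Agent.Results.MP_b08cb4_nt.MissingDigitLargeBase
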