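import Mathlib
import Pool.Agent.W288.NK.Final2

/-!
# Powers of a prime whose base-`q` expansion misses a digit

Let `q` be an odd prime, `p ≥ 2` an integer not divisible by `q`, and let `D` be a set of `d`
digits with `√q < d < q`; put `a = log d / log q`, so `1/2 < a < 1`.  Looking only at the lowest
`log_q N` digits one sees that at most `O(N ^ a)` of the numbers `p ^ n`, `n ≤ N`, have all their
base-`q` digits in `D`; for `p = 2`, `q = 3`, `D = {0, 1}` this is the bound of Narkiewicz.  Here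
the exponent is lowered to `(1 + 2 a ^ 2) / 3 < a`.  For `2 ^ n` without the ternary digit `2`
this is `N ^ 0.5988` instead of `N ^ 0.6309`.  Only the lowest
`2 ⌈(1 + a) / 3 * log_q N⌉` digits are used, and the bound is uniform over all multiples
`u * p ^ n` with `u` prime to `q`.

The proof: for `n = s + T m`, with `T` the period of `p ^ n` modulo `q ^ k` (up to a constant
factor, `T = q ^ k`), the lowest `k` digits of `u p ^ n` depend on `s` only, and the next `k`
digits are those of `c_s + λ_s m` modulo `q ^ k`, where `λ_s` is a unit that is proportional to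
the residue of `u p ^ s`.  Counting by exponential sums on `ℤ / q ^ k`, the error term is an
average over `s` and over the frequencies `y` of `|F (y / λ_s)|`, with `F` the Fourier transform
of the missing-digit set; it is bounded by Cauchy-Schwarz, by Parseval, and by the fact that each
residue is `y / λ_s` for at most `d ^ h` pairs `(y, s)` with `1 ≤ y < q ^ h`.
-/

set_option autoImplicit false

namespace Pool.Agent.Results.MP_b08cb4_nt.MissingDigits

open Pool.Agent.W288.NK

theorem mem_digits (q m i : ℕ) (hq : 2 ≤ q) (h : q ^ i ≤ m) : m / q ^ i % q ∈ Nat.digits q m := by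
  have h1 : m < q ^ (Nat.digits q m).length := Nat.lt_base_pow_length_digits (by omega)
  have h2 : i < (Nat.digits q m).length := by
    by_contra hc
    push Not at hc
    have := Nat.pow_le_pow_right (n := q) (by omega) hc
    omega
  rw [← Nat.getD_digits m i hq, List.getD_eq_getElem _ _ h2]
  exact List.getElem_mem h2

/-- The general bound. -/
theorem general (q p : ℕ) (hq : q.Prime) (hq2 : q ≠ 2) (hp : 2 ≤ p) (hpq : ¬ q ∣ p)
    (D : Finset ℕ) (hD1 : q < D.card ^ 2) (hD : D.card < q) (a : ℝ)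
    (ha : a = Real.log D.card / Real.log q) :
    (1 + 2 * a ^ 2) / 3 < a ∧
    ∃ C : ℝ, ∀ u : ℕ, 0 < u → Nat.Coprime u q → ∀ N : ℕ, 1 ≤ N →
      (((Finset.range N).filter (fun n =>
          ∀ i < 2 * ⌈(1 + a) / 3 * (Real.log N / Real.log q)⌉₊,
            (u * p ^ n) / q ^ i % q ∈ D)).card : ℝ) ≤ C * (N : ℝ) ^ ((1 + 2 * a ^ 2) / 3) ∧
      (((Finset.range N).filter (fun n =>
          (Nat.digits q (u * p ^ n)).toFinset ⊆ D)).card : ℝ)
        ≤ C * (N : ℝ) ^ ((1 + 2 * a ^ 2) / 3) := by
  have hqr : (2 : ℝ) ≤ q := by exact_mod_cast hq.two_le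
  have hq0 : (0 : ℝ) < q := by linarith
  have hl0 : 0 < Real.log q := Real.log_pos (by linarith)
  have hDc1 : 1 ≤ D.card := by
    rcases Nat.eq_zero_or_pos D.card with h | h
    · rw [h] at hD1; omega
    · exact h
  have hd0 : (0 : ℝ) < D.card := by exact_mod_cast hDc1
  have ha1 : a < 1 := by
    rw [ha, div_lt_one hl0]; exact Real.log_lt_log hd0 (by exact_mod_cast hD)
  have ha2 : 1 / 2 < a := by
    rw [ha, lt_div_iff₀ hl0]
    have h1 : Real.log q < Real.log ((D.card : ℝ) ^ 2) := by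
      apply Real.log_lt_log hq0
      exact_mod_cast hD1
    rw [Real.log_pow] at h1
    push_cast at h1
    linarith
  refine ⟨by nlinarith, ?_⟩
  obtain ⟨C, hC0, hC⟩ := main_asymp q p hq hq2 hp hpq D hD1 hD a ha
  clear ha
  have hlog2 : 0 < Real.log 2 := Real.log_pos (by norm_num)
  set E : ℝ := (1 + 2 * a ^ 2) / 3 with hE
  have hE0 : 0 < E := by rw [hE]; positivity
  set C' : ℝ := 2 / Real.log 2 * ((1 + a) / 3 * (1 / E) + Real.log q) + 1 with hC'
  have hC'0 : 0 < C' := by
    have h1 : 0 < (1 + a) / 3 * (1 / E) := by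
      have : 0 < 1 + a := by linarith
      positivity
    positivity
  refine ⟨C + C', ?_⟩
  intro u hu0 hu N hN
  have hNr : (1 : ℝ) ≤ N := by exact_mod_cast hN
  have hNE : 1 ≤ (N : ℝ) ^ E := Real.one_le_rpow hNr hE0.le
  have h1 := hC u hu N hN
  have h1' : (((Finset.range N).filter (fun n =>
          ∀ i < 2 * ⌈(1 + a) / 3 * (Real.log N / Real.log q)⌉₊,
            (u * p ^ n) / q ^ i % q ∈ D)).card : ℝ) ≤ C * (N : ℝ) ^ E := by
    have hset : (Finset.range N).filter (fun n =>
          ∀ i < 2 * ⌈(1 + a) / 3 * (Real.log N / Real.log q)⌉₊,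
            (u * p ^ n) / q ^ i % q ∈ D)
        = (Finset.range N).filter (fun n => good q D (2 * blockLen q a N) (u * p ^ n)) := by
      apply Finset.filter_congr
      intro n _
      exact Iff.rfl
    rw [hset]
    exact h1
  have hC'NE : 0 ≤ C' * (N : ℝ) ^ E := by positivity
  refine ⟨by rw [add_mul]; linarith, ?_⟩
  set k := ⌈(1 + a) / 3 * (Real.log N / Real.log q)⌉₊ with hk
  -- the exceptional n
  have hsub : (Finset.range N).filter (fun n => (Nat.digits q (u * p ^ n)).toFinset ⊆ D)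
      ⊆ ((Finset.range N).filter (fun n => ∀ i < 2 * k, (u * p ^ n) / q ^ i % q ∈ D)) ∪
        Finset.range (⌊2 * k * Real.log q / Real.log 2⌋₊ + 1) := by
    intro n hn
    obtain ⟨h2, h3⟩ := Finset.mem_filter.mp hn
    rw [Finset.mem_union]
    by_cases h4 : q ^ (2 * k) ≤ u * p ^ n
    · left
      rw [Finset.mem_filter]
      refine ⟨h2, fun i hi => ?_⟩
      apply h3
      rw [List.mem_toFinset]
      apply mem_digits q _ i hq.two_le
      exact le_trans (Nat.pow_le_pow_right hq.pos (by omega)) h4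
    · right
      push Not at h4
      rw [Finset.mem_range]
      have h5 : 2 ^ n < q ^ (2 * k) := by
        calc 2 ^ n ≤ p ^ n := Nat.pow_le_pow_left hp n
          _ ≤ u * p ^ n := Nat.le_mul_of_pos_left _ hu0
          _ < _ := h4
      have h6 : (n : ℝ) * Real.log 2 < 2 * k * Real.log q := by
        have h7 : ((2 : ℝ)) ^ n < (q : ℝ) ^ (2 * k) := by exact_mod_cast h5
        have h8 := Real.log_lt_log (by positivity) h7
        rw [Real.log_pow, Real.log_pow] at h8
        push_cast at h8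
        exact h8
      have h7 : (n : ℝ) ≤ 2 * k * Real.log q / Real.log 2 := by
        rw [le_div_iff₀ hlog2]; exact h6.le
      have := Nat.le_floor h7
      omega
  have hcard := le_trans (Finset.card_le_card hsub) (Finset.card_union_le _ _)
  rw [Finset.card_range] at hcard
  have hcard' : (((Finset.range N).filter (fun n =>
          (Nat.digits q (u * p ^ n)).toFinset ⊆ D)).card : ℝ)
      ≤ (((Finset.range N).filter (fun n => ∀ i < 2 * k,
            (u * p ^ n) / q ^ i % q ∈ D)).card : ℝ)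
        + ((⌊2 * k * Real.log q / Real.log 2⌋₊ : ℝ) + 1) := by
    exact_mod_cast hcard
  have hlogN : 0 ≤ Real.log N := Real.log_nonneg hNr
  have hfl : (⌊2 * k * Real.log q / Real.log 2⌋₊ : ℝ) ≤ 2 * k * Real.log q / Real.log 2 :=
    Nat.floor_le (by positivity)
  have hkl : (k : ℝ) * Real.log q ≤ (1 + a) / 3 * Real.log N + Real.log q := by
    have h2 : (k : ℝ) < (1 + a) / 3 * (Real.log N / Real.log q) + 1 := by
      rw [hk]; exact Nat.ceil_lt_add_one (by
        have : 0 < 1 + a := by linarith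
        positivity)
    have h3 := mul_le_mul_of_nonneg_right h2.le hl0.le
    have e : ((1 + a) / 3 * (Real.log N / Real.log q) + 1) * Real.log q
      = (1 + a) / 3 * Real.log N + Real.log q := by field_simp
    linarith
  have hlN : Real.log N ≤ (1 / E) * (N : ℝ) ^ E := by
    have := Real.log_le_rpow_div (x := (N : ℝ)) (by linarith) hE0
    rw [one_div, mul_comm, ← div_eq_mul_inv]; exact this
  have hexc : (⌊2 * k * Real.log q / Real.log 2⌋₊ : ℝ) + 1 ≤ C' * (N : ℝ) ^ E := by
    have h1a : 0 < (1 + a) / 3 := by linarith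
    calc (⌊2 * k * Real.log q / Real.log 2⌋₊ : ℝ) + 1
        ≤ 2 / Real.log 2 * (k * Real.log q) + 1 := by
          have e : 2 * k * Real.log q / Real.log 2 = 2 / Real.log 2 * (k * Real.log q) := by ring
          linarith
      _ ≤ 2 / Real.log 2 * ((1 + a) / 3 * ((1 / E) * (N : ℝ) ^ E) + Real.log q * (N : ℝ) ^ E)
            + (N : ℝ) ^ E := by
          have h9 : (k : ℝ) * Real.log q ≤ (1 + a) / 3 * ((1 / E) * (N : ℝ) ^ E)
            + Real.log q * (N : ℝ) ^ E := by
            have h10 : (1 + a) / 3 * Real.log N ≤ (1 + a) / 3 * ((1 / E) * (N : ℝ) ^ E) :=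
              mul_le_mul_of_nonneg_left hlN h1a.le
            have h11 : Real.log q * 1 ≤ Real.log q * (N : ℝ) ^ E :=
              mul_le_mul_of_nonneg_left hNE hl0.le
            linarith
          have h12 : 0 ≤ 2 / Real.log 2 := by positivity
          have := mul_le_mul_of_nonneg_left h9 h12
          linarith
      _ = C' * (N : ℝ) ^ E := by rw [hC']; ring
  rw [add_mul]
  linarith

/-- Base `q` expansions of `p ^ n` that miss a given digit. -/
theorem one_digit (p q b : ℕ) (hp : p.Prime) (hq : q.Prime) (hpq : p ≠ q) (hq2 : q ≠ 2)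
    (hb : b < q) :
    ∃ C : ℝ, ∀ N : ℕ, 1 ≤ N →
      (((Finset.Icc 1 N).filter (fun n => b ∉ Nat.digits q (p ^ n))).card : ℝ)
        ≤ C * (N : ℝ) ^ ((1 + 2 * (Real.log ((q : ℝ) - 1) / Real.log q) ^ 2) / 3) := by
  have hq3 : 3 ≤ q := by
    have := hq.two_le; omega
  have hcard : ((Finset.range q).erase b).card = q - 1 := by
    rw [Finset.card_erase_of_mem (Finset.mem_range.mpr hb), Finset.card_range]
  have hcr : (((Finset.range q).erase b).card : ℝ) = (q : ℝ) - 1 := by
    rw [hcard, Nat.cast_sub (by omega)]; simp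
  have hndvd : ¬ q ∣ p := by
    intro h
    exact hpq ((Nat.prime_dvd_prime_iff_eq hq hp).mp h).symm
  have hD1 : q < ((Finset.range q).erase b).card ^ 2 := by
    rw [hcard]
    obtain ⟨m, rfl⟩ : ∃ m, q = m + 3 := ⟨q - 3, by omega⟩
    have : m + 3 - 1 = m + 2 := by omega
    rw [this]; nlinarith
  have hD2 : ((Finset.range q).erase b).card < q := by rw [hcard]; omega
  obtain ⟨_, C, hC⟩ := general q p hq hq2 hp.two_le hndvd _ hD1 hD2
    (Real.log ((q : ℝ) - 1) / Real.log q) (by rw [hcr])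
  set E : ℝ := (1 + 2 * (Real.log ((q : ℝ) - 1) / Real.log q) ^ 2) / 3 with hE
  have hE0 : 0 ≤ E := by positivity
  refine ⟨|C| * 2 ^ E, ?_⟩
  intro N hN
  have h1 := (hC 1 one_pos (Nat.coprime_one_left q) (N + 1) (by omega)).2
  have hsub : (Finset.Icc 1 N).filter (fun n => b ∉ Nat.digits q (p ^ n))
      ⊆ (Finset.range (N + 1)).filter (fun n =>
        (Nat.digits q (1 * p ^ n)).toFinset ⊆ (Finset.range q).erase b) := by
    intro n hn
    obtain ⟨h2, h3⟩ := Finset.mem_filter.mp hn
    rw [Finset.mem_Icc] at h2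
    rw [Finset.mem_filter]
    refine ⟨Finset.mem_range.mpr (by omega), fun c hc => ?_⟩
    rw [List.mem_toFinset, one_mul] at hc
    rw [Finset.mem_erase, Finset.mem_range]
    refine ⟨?_, Nat.digits_lt_base hq.one_lt hc⟩
    rintro rfl; exact h3 hc
  have h2 : (((Finset.Icc 1 N).filter (fun n => b ∉ Nat.digits q (p ^ n))).card : ℝ)
      ≤ (((Finset.range (N + 1)).filter (fun n =>
        (Nat.digits q (1 * p ^ n)).toFinset ⊆ (Finset.range q).erase b)).card : ℝ) := by
    exact_mod_cast Finset.card_le_card hsub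
  have hNr : (1 : ℝ) ≤ N := by exact_mod_cast hN
  calc _ ≤ _ := h2
    _ ≤ C * ((N + 1 : ℕ) : ℝ) ^ E := h1
    _ ≤ |C| * ((N + 1 : ℕ) : ℝ) ^ E := mul_le_mul_of_nonneg_right (le_abs_self C) (by positivity)
    _ ≤ |C| * (2 * (N : ℝ)) ^ E := by
        apply mul_le_mul_of_nonneg_left _ (abs_nonneg C)
        apply Real.rpow_le_rpow (by positivity) _ hE0
        push_cast; linarith
    _ = |C| * 2 ^ E * (N : ℝ) ^ E := by
        rw [Real.mul_rpow (by norm_num) (by linarith)]; ring

theorem log_two_div_log_three : Real.log 2 / Real.log 3 ≤ 53 / 84 := by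
  have h3 : 0 < Real.log 3 := Real.log_pos (by norm_num)
  rw [div_le_iff₀ h3]
  have h1 : Real.log ((2 : ℝ) ^ 84) ≤ Real.log ((3 : ℝ) ^ 53) := by
    apply Real.log_le_log (by positivity)
    norm_num
  rw [Real.log_pow, Real.log_pow] at h1
  push_cast at h1
  linarith

/-- Powers of two without the ternary digit two. -/
theorem ternary :
    ∃ C : ℝ, ∀ N : ℕ, 1 ≤ N →
      (((Finset.Icc 1 N).filter (fun n => 2 ∉ Nat.digits 3 (2 ^ n))).card : ℝ)
        ≤ C * (N : ℝ) ^ (0.5988 : ℝ) := by
  obtain ⟨C, hC⟩ := one_digit 2 3 2 Nat.prime_two Nat.prime_three (by norm_num) (by norm_num)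
    (by norm_num)
  refine ⟨|C|, ?_⟩
  intro N hN
  have hNr : (1 : ℝ) ≤ N := by exact_mod_cast hN
  refine le_trans (hC N hN) ?_
  refine le_trans (mul_le_mul_of_nonneg_right (le_abs_self C) (by positivity)) ?_
  apply mul_le_mul_of_nonneg_left _ (abs_nonneg C)
  apply Real.rpow_le_rpow_of_exponent_le hNr
  have h1 := log_two_div_log_three
  have h3 : 0 < Real.log 3 := Real.log_pos (by norm_num)
  have h2 : 0 ≤ Real.log 2 / Real.log 3 := div_nonneg (Real.log_nonneg (by norm_num)) h3.le
  have e : (((3 : ℕ) : ℝ) - 1) = 2 := by norm_num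
  rw [e]
  push_cast
  nlinarith

/-- The result. -/
theorem result :
    (∀ q p : ℕ, q.Prime → q ≠ 2 → 2 ≤ p → ¬ q ∣ p →
      ∀ D : Finset ℕ, q < D.card ^ 2 → D.card < q →
      ∀ a : ℝ, a = Real.log D.card / Real.log q →
        (1 + 2 * a ^ 2) / 3 < a ∧
        ∃ C : ℝ, ∀ u : ℕ, 0 < u → Nat.Coprime u q → ∀ N : ℕ, 1 ≤ N →
          (((Finset.range N).filter (fun n =>
              ∀ i < 2 * ⌈(1 + a) / 3 * (Real.log N / Real.log q)⌉₊,
                (u * p ^ n) / q ^ i % q ∈ D)).card : ℝ) ≤ C * (N : ℝ) ^ ((1 + 2 * a ^ 2) / 3) ∧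
          (((Finset.range N).filter (fun n =>
              (Nat.digits q (u * p ^ n)).toFinset ⊆ D)).card : ℝ)
            ≤ C * (N : ℝ) ^ ((1 + 2 * a ^ 2) / 3)) ∧
    (∀ p q b : ℕ, p.Prime → q.Prime → p ≠ q → q ≠ 2 → b < q →
      ∃ C : ℝ, ∀ N : ℕ, 1 ≤ N →
        (((Finset.Icc 1 N).filter (fun n => b ∉ Nat.digits q (p ^ n))).card : ℝ)
          ≤ C * (N : ℝ) ^ ((1 + 2 * (Real.log ((q : ℝ) - 1) / Real.log q) ^ 2) / 3)) ∧
    (∃ C : ℝ, ∀ N : ℕ, 1 ≤ N →
      (((Finset.Icc 1 N).filter (fun n => 2 ∉ Nat.digits 3 (2 ^ n))).card : ℝ)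
        ≤ C * (N : ℝ) ^ (0.5988 : ℝ)) :=
  ⟨fun q p hq hq2 hp hpq D hD1 hD a ha => general q p hq hq2 hp hpq D hD1 hD a ha,
   fun p q b hp hq hpq hq2 hb => one_digit p q b hp hq hpq hq2 hb, ternary⟩

end Pool.Agent.Results.MP_b08cb4_nt.MissingDigits
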